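import Pool.Agent.H533.JT.StmI

/-! Proof of ISO: character sums of 2-isogenous curves. -/

set_option autoImplicit false

namespace Pool.Agent.H533.JT.ISO

open Finset

theorem char_ne {p : ℕ} [Fact p.Prime] (hp : p ≠ 2) : ringChar (ZMod p) ≠ 2 := by
  rw [ZMod.ringChar_zmod_n]
  exact hp

theorem card_roots {p : ℕ} [Fact p.Prime] (hp : p ≠ 2) (b t : ZMod p) (hb : b ≠ 0) :
    ((((univ : Finset (ZMod p)).filter (fun x => x ≠ 0)).filter (fun x => x + b / x = t)).card : ℤ) =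
      quadraticChar (ZMod p) (t ^ 2 - 4 * b) + 1 := by
  have h2 : (2 : ZMod p) ≠ 0 := Ring.two_ne_zero (char_ne hp)
  rw [← quadraticChar_card_sqrts (char_ne hp)]
  congr 1
  apply Finset.card_bij (fun x _ => 2 * x - t)
  · intro x hx
    simp only [Finset.mem_filter, Finset.mem_univ, true_and] at hx
    obtain ⟨h0, h1⟩ := hx
    have h3 : x ^ 2 + b = t * x := by
      rw [← h1]
      field_simp
    simp only [Set.mem_toFinset, Set.mem_ofPred_eq]
    linear_combination 4 * h3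
  · intro x _ y _ h
    have h3 : 2 * (x - y) = 0 := by linear_combination h
    rcases mul_eq_zero.1 h3 with h4 | h4
    · exact absurd h4 h2
    · exact sub_eq_zero.1 h4
  · intro y hy
    simp only [Set.mem_toFinset, Set.mem_ofPred_eq] at hy
    have h4 : (4 : ZMod p) ≠ 0 := by
      have : (4 : ZMod p) = 2 * 2 := by norm_num
      rw [this]
      exact mul_ne_zero h2 h2
    have hx : 2 * ((y + t) / 2) = y + t := mul_div_cancel₀ (y + t) h2
    have hq : ((y + t) / 2) ^ 2 + b = t * ((y + t) / 2) := by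
      field_simp
      linear_combination hy
    have hx0 : (y + t) / 2 ≠ 0 := by
      intro h0
      rw [h0] at hq
      apply hb
      linear_combination hq
    refine ⟨(y + t) / 2, ?_, ?_⟩
    · simp only [Finset.mem_filter, Finset.mem_univ, true_and]
      refine ⟨hx0, ?_⟩
      have h5 : ((y + t) / 2 + b / ((y + t) / 2)) * ((y + t) / 2) = t * ((y + t) / 2) := by
        rw [add_mul, div_mul_cancel₀ _ hx0, ← hq]
        ring
      exact mul_right_cancel₀ hx0 h5
    · rw [hx]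
      ring

theorem isog {p : ℕ} [Fact p.Prime] (hp : p ≠ 2) (a b : ZMod p) (hb : b ≠ 0) :
    ∑ x : ZMod p, quadraticChar (ZMod p) (x * (x ^ 2 + a * x + b)) =
      ∑ s : ZMod p, quadraticChar (ZMod p) (s * (s ^ 2 - 2 * a * s + a ^ 2 - 4 * b)) := by
  have h1 : ∑ x : ZMod p, quadraticChar (ZMod p) (x * (x ^ 2 + a * x + b)) =
      ∑ x ∈ (univ : Finset (ZMod p)).filter (fun x => x ≠ 0),
        quadraticChar (ZMod p) (x + b / x + a) := by
    rw [Finset.sum_filter]
    refine Finset.sum_congr rfl fun x _ => ?_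
    by_cases hx : x = 0
    · rw [if_neg (not_not.2 hx), hx, zero_mul]
      exact quadraticChar_zero
    · rw [if_pos hx]
      have e : x * (x ^ 2 + a * x + b) = x ^ 2 * (x + b / x + a) := by
        field_simp
        ring
      rw [e, map_mul, quadraticChar_sq_one' hx, one_mul]
  have h2 : ∑ x ∈ (univ : Finset (ZMod p)).filter (fun x => x ≠ 0),
        quadraticChar (ZMod p) (x + b / x + a) =
      ∑ t : ZMod p, (quadraticChar (ZMod p) (t ^ 2 - 4 * b) + 1) * quadraticChar (ZMod p) (t + a) := by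
    rw [← Finset.sum_fiberwise _ (fun x : ZMod p => x + b / x)]
    refine Finset.sum_congr rfl fun t _ => ?_
    rw [← card_roots hp b t hb]
    have e : ∀ x ∈ ((univ : Finset (ZMod p)).filter (fun x => x ≠ 0)).filter
        (fun x => x + b / x = t), quadraticChar (ZMod p) (x + b / x + a) =
        quadraticChar (ZMod p) (t + a) := by
      intro x hx
      rw [(Finset.mem_filter.1 hx).2]
    rw [Finset.sum_congr rfl e, Finset.sum_const, nsmul_eq_mul]
  have h3 : ∑ t : ZMod p, quadraticChar (ZMod p) (t + a) = 0 := by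
    have h := Equiv.sum_comp (Equiv.addRight a) (fun x : ZMod p => quadraticChar (ZMod p) x)
    rw [quadraticChar_sum_zero (char_ne hp)] at h
    exact h
  have h4 : ∑ s : ZMod p, quadraticChar (ZMod p) (s * (s ^ 2 - 2 * a * s + a ^ 2 - 4 * b)) =
      ∑ t : ZMod p, quadraticChar (ZMod p) (t ^ 2 - 4 * b) * quadraticChar (ZMod p) (t + a) := by
    rw [← Equiv.sum_comp (Equiv.addRight a) (fun s : ZMod p =>
      quadraticChar (ZMod p) (s * (s ^ 2 - 2 * a * s + a ^ 2 - 4 * b)))]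
    refine Finset.sum_congr rfl fun t _ => ?_
    rw [← map_mul]
    congr 1
    show (t + a) * ((t + a) ^ 2 - 2 * a * (t + a) + a ^ 2 - 4 * b) = _
    ring
  rw [h1, h2, h4]
  have e : ∀ t : ZMod p, (quadraticChar (ZMod p) (t ^ 2 - 4 * b) + 1) *
      quadraticChar (ZMod p) (t + a) =
      quadraticChar (ZMod p) (t ^ 2 - 4 * b) * quadraticChar (ZMod p) (t + a) +
        quadraticChar (ZMod p) (t + a) := fun t => by ring
  simp_rw [e]
  rw [Finset.sum_add_distrib, h3, add_zero]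

/-- the second statement -/
theorem sec {p : ℕ} [Fact p.Prime] (hp : p ≠ 2) (n : ZMod p) (hn : n ≠ 0) :
    ∑ x : ZMod p, quadraticChar (ZMod p) (x ^ 3 - 11 * n ^ 2 * x + 14 * n ^ 3) =
      ∑ x : ZMod p, quadraticChar (ZMod p) (x ^ 3 - n ^ 2 * x) := by
  have h2 : (2 : ZMod p) ≠ 0 := Ring.two_ne_zero (char_ne hp)
  have h4 : (4 : ZMod p) ≠ 0 := by
    have : (4 : ZMod p) = 2 * 2 := by norm_num
    rw [this]
    exact mul_ne_zero h2 h2
  have h8 : (8 : ZMod p) ≠ 0 := by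
    have : (8 : ZMod p) = 2 * 4 := by norm_num
    rw [this]
    exact mul_ne_zero h2 h4
  have e1 : ∑ x : ZMod p, quadraticChar (ZMod p) (x ^ 3 - 11 * n ^ 2 * x + 14 * n ^ 3) =
      ∑ x : ZMod p, quadraticChar (ZMod p) (x * (x ^ 2 + (6 * n) * x + n ^ 2)) := by
    rw [← Equiv.sum_comp (Equiv.addRight (2 * n)) (fun x : ZMod p =>
      quadraticChar (ZMod p) (x ^ 3 - 11 * n ^ 2 * x + 14 * n ^ 3))]
    refine Finset.sum_congr rfl fun x _ => ?_
    congr 1
    show (x + 2 * n) ^ 3 - 11 * n ^ 2 * (x + 2 * n) + 14 * n ^ 3 = _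
    ring
  have e2 : ∑ s : ZMod p, quadraticChar (ZMod p)
      (s * (s ^ 2 - 2 * (6 * n) * s + (6 * n) ^ 2 - 4 * n ^ 2)) =
      ∑ x : ZMod p, quadraticChar (ZMod p) (x * (x ^ 2 - 16 * n ^ 2)) := by
    rw [← Equiv.sum_comp (Equiv.addRight (4 * n)) (fun s : ZMod p =>
      quadraticChar (ZMod p) (s * (s ^ 2 - 2 * (6 * n) * s + (6 * n) ^ 2 - 4 * n ^ 2)))]
    refine Finset.sum_congr rfl fun x _ => ?_
    congr 1
    show (x + 4 * n) * ((x + 4 * n) ^ 2 - 2 * (6 * n) * (x + 4 * n) + (6 * n) ^ 2 - 4 * n ^ 2) = _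
    ring
  have e3 : ∑ x : ZMod p, quadraticChar (ZMod p) (x * (x ^ 2 - 16 * n ^ 2)) =
      ∑ x : ZMod p, quadraticChar (ZMod p) (x ^ 3 - n ^ 2 * x) := by
    rw [← Equiv.sum_comp (Equiv.mulLeft₀ (4 : ZMod p) h4) (fun x : ZMod p =>
      quadraticChar (ZMod p) (x * (x ^ 2 - 16 * n ^ 2)))]
    refine Finset.sum_congr rfl fun x _ => ?_
    have e : (Equiv.mulLeft₀ (4 : ZMod p) h4) x * ((Equiv.mulLeft₀ (4 : ZMod p) h4) x ^ 2 -
        16 * n ^ 2) = 8 ^ 2 * (x ^ 3 - n ^ 2 * x) := by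
      show (4 * x) * ((4 * x) ^ 2 - 16 * n ^ 2) = _
      ring
    rw [e, map_mul, quadraticChar_sq_one' h8, one_mul]
  rw [e1, isog hp (6 * n) (n ^ 2) (pow_ne_zero 2 hn), e2, e3]

theorem iso : S_ISO := by
  intro p _ hp n hn
  have h2 : (2 : ZMod p) ≠ 0 := Ring.two_ne_zero (char_ne hp)
  refine ⟨?_, sec hp n hn, ?_⟩
  · have h := isog hp 0 (n ^ 2) (pow_ne_zero 2 hn)
    have e1 : ∀ x : ZMod p, x * (x ^ 2 + 0 * x + n ^ 2) = x ^ 3 + n ^ 2 * x := fun x => by ring
    have e2 : ∀ x : ZMod p, x * (x ^ 2 - 2 * 0 * x + 0 ^ 2 - 4 * n ^ 2) =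
        x ^ 3 - (2 * n) ^ 2 * x := fun x => by ring
    simp_rw [e1, e2] at h
    exact h
  · have e1 : ∑ x : ZMod p, quadraticChar (ZMod p) (x ^ 3 - 11 * n ^ 2 * x - 14 * n ^ 3) =
        quadraticChar (ZMod p) (-1) *
          ∑ x : ZMod p, quadraticChar (ZMod p) (x ^ 3 - 11 * n ^ 2 * x + 14 * n ^ 3) := by
      rw [← Equiv.sum_comp (Equiv.neg (ZMod p)) (fun x : ZMod p =>
        quadraticChar (ZMod p) (x ^ 3 - 11 * n ^ 2 * x - 14 * n ^ 3)), Finset.mul_sum]
      refine Finset.sum_congr rfl fun x _ => ?_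
      rw [← map_mul]
      congr 1
      show (-x) ^ 3 - 11 * n ^ 2 * (-x) - 14 * n ^ 3 = _
      ring
    have e2 : ∑ x : ZMod p, quadraticChar (ZMod p) (x ^ 3 - n ^ 2 * x) =
        quadraticChar (ZMod p) (-1) *
          ∑ x : ZMod p, quadraticChar (ZMod p) (x ^ 3 - n ^ 2 * x) := by
      rw [Finset.mul_sum]
      refine (Equiv.sum_comp (Equiv.neg (ZMod p)) (fun x : ZMod p =>
        quadraticChar (ZMod p) (x ^ 3 - n ^ 2 * x))).symm.trans ?_
      refine Finset.sum_congr rfl fun x _ => ?_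
      rw [← map_mul]
      congr 1
      show (-x) ^ 3 - n ^ 2 * (-x) = _
      ring
    rw [e1, sec hp n hn, ← e2]

end Pool.Agent.H533.JT.ISO
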