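import Pool.Agent.H533.JT.Cnd
import Pool.Agent.H533.JT.ISO

/-!
# Project JT (helper533): the primes with a given vector of traces in a progression
-/

set_option autoImplicit false

namespace Pool.Agent.H533.JT

open Finset Filter Topology Pool.Agent.N782.GN Pool.Agent.N782.GN.LT Pool.Agent.H304R2.EC Pool.Agent.H304R2.EC.Pts

/-- The number of the primes `p ≤ x`, `p ≡ c` modulo `N`, not dividing `2 ∏ D_j`, with `a_p(E_j) = r_j` for all `j`. -/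
noncomputable def count {k : ℕ} (E : Fin (k + 1) → ℤ × ℤ) (D : Fin (k + 1) → ℕ) (N c : ℕ) (r : Fin (k + 1) → ℤ)
    (x : ℝ) : ℕ :=
  ((Icc 1 ⌊x⌋₊).filter (fun p => p.Prime ∧ ¬ p ∣ 2 * ∏ j, D j ∧ p % N = c % N ∧ ∀ j, trace (E j) p = r j)).card

/-- The number of the classes `m` modulo `4 N ∏ D_j` which are even, with `(r_0/2)² + m² ≡ c` modulo `N` and
`(D_j / (r_0/2)² + m²) χ₄(r_0/2 + m) r_0 = r_j` for all `j` (Jacobi symbols), if `r_0 ≡ 2` modulo `4`; otherwise `0`. -/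
noncomputable def classes {k : ℕ} (D : Fin (k + 1) → ℕ) (N c : ℕ) (r : Fin (k + 1) → ℤ) : ℕ :=
  ((range (4 * (N * ∏ j, D j))).filter (fun m : ℕ => r 0 % 4 = 2 ∧ m % 2 = 0 ∧
    ((r 0 / 2) ^ 2 + (m : ℤ) ^ 2) % (N : ℤ) = (c : ℤ) % (N : ℤ) ∧
    ∀ j, jacobiSym (D j) ((r 0 / 2) ^ 2 + (m : ℤ) ^ 2).natAbs * ZMod.χ₄ ((r 0 / 2 + m : ℤ) : ZMod 4) * r 0 = r j)).card

variable {k : ℕ}

theorem not_dvd_of {D : Fin (k + 1) → ℕ} {p : ℕ} (h : ¬ p ∣ 2 * ∏ j, D j) (j : Fin (k + 1)) : ¬ p ∣ D j := fun hj =>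
  h (Dvd.dvd.mul_left (hj.trans (dvd_prod_of_mem D (mem_univ j))) 2)

theorem ne_two_of {D : Fin (k + 1) → ℕ} {p : ℕ} (h : ¬ p ∣ 2 * ∏ j, D j) : p ≠ 2 := by
  rintro rfl
  exact h (dvd_mul_right 2 _)

/-- two traces differ at most by their sign -/
theorem abs_trace {E : Fin (k + 1) → ℤ × ℤ} {D : Fin (k + 1) → ℕ} (hE : ∀ j, Gauss (E j) (D j)) {p : ℕ} (hp : p.Prime)
    (h : ¬ p ∣ 2 * ∏ j, D j) (j : Fin (k + 1)) : |trace (E j) p| = |an p| := by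
  have : Fact p.Prime := ⟨hp⟩
  rw [trace_eq ISO.iso (hE j) (ne_two_of h) (not_dvd_of h j), abs_mul]
  have h1 : jacobiSym (D j) p ≠ 0 := by
    rw [Ne, jacobiSym.eq_zero_iff]
    rintro ⟨-, h2⟩
    apply h2
    rw [Int.gcd_natCast_natCast, Nat.gcd_comm]
    exact (Nat.Prime.coprime_iff_not_dvd hp).2 (not_dvd_of h j)
  rcases jacobiSym.trichotomy (D j : ℤ) p with h2 | h2 | h2
  · exact absurd h2 h1
  · rw [h2]
    simp
  · rw [h2]
    simp

theorem count_zero_of_ne {E : Fin (k + 1) → ℤ × ℤ} {D : Fin (k + 1) → ℕ} (hE : ∀ j, Gauss (E j) (D j)) (N c : ℕ)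
    (r : Fin (k + 1) → ℤ) (x : ℝ) {i j : Fin (k + 1)} (hij : |r i| ≠ |r j|) : count E D N c r x = 0 := by
  unfold count
  rw [card_eq_zero, filter_eq_empty_iff]
  intro p _
  rintro ⟨hp, hD, -, ht⟩
  apply hij
  rw [← ht i, ← ht j, abs_trace hE hp hD i, abs_trace hE hp hD j]

theorem tr_eq_trace {E : Fin (k + 1) → ℤ × ℤ} {D : Fin (k + 1) → ℕ} (hE : ∀ j, Gauss (E j) (D j)) {p : ℕ} (hp : p.Prime)
    (h : ¬ p ∣ 2 * ∏ j, D j) (j : Fin (k + 1)) : tr (D j) p = trace (E j) p := by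
  have : Fact p.Prime := ⟨hp⟩
  rw [trace_eq ISO.iso (hE j) (ne_two_of h) (not_dvd_of h j), tr_eq (D j) (ne_two_of h) (not_dvd_of h j)]

theorem nd2 {D : Fin (k + 1) → ℕ} {p : ℕ} (hp : p.Prime) (h : ¬ p ∣ 2 * ∏ j, D j) (j : Fin (k + 1)) : ¬ p ∣ 2 * D j := by
  intro h1
  rcases (Nat.Prime.dvd_mul hp).1 h1 with h2 | h2
  · exact h (Dvd.dvd.mul_right h2 _)
  · exact not_dvd_of h j h2

theorem count_zero {E : Fin (k + 1) → ℤ × ℤ} {D : Fin (k + 1) → ℕ} (hE : ∀ j, Gauss (E j) (D j)) (N c : ℕ)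
    (r : Fin (k + 1) → ℤ) (x : ℝ) (hr0 : r 0 ≠ 0) (hr : r 0 % 4 ≠ 2) : count E D N c r x = 0 := by
  unfold count
  rw [card_eq_zero, filter_eq_empty_iff]
  intro p _
  rintro ⟨hp, hD, -, ht⟩
  have h0 := tr_eq_trace hE hp hD 0
  rw [ht 0] at h0
  obtain ⟨a, m, -, h2, -, -, h5⟩ := exists_rep_of_trace (D 0) hp (nd2 hp hD 0) (by rw [h0]; exact hr0)
  rw [h0] at h5
  omega

open Classical in
theorem count_eq {E : Fin (k + 1) → ℤ × ℤ} {D : Fin (k + 1) → ℕ} (hE : ∀ j, Gauss (E j) (D j)) (N c : ℕ)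
    (s : Fin (k + 1) → ℤ) (hs : ∀ j, s j = 1 ∨ s j = -1) (hs0 : s 0 = 1) (a : ℤ) (x : ℝ) (hx : 0 ≤ x) (ha : a % 2 = 1) :
    count E D N c (fun j => s j * (2 * a)) x = ((Icc 1 ⌊Real.sqrt (x - (a : ℝ) ^ 2)⌋₊).filter
      (fun m : ℕ => (a.natAbs ^ 2 + m ^ 2).Prime ∧ HJ D s N c a m)).card := by
  have hcast : ∀ m : ℕ, ((a.natAbs ^ 2 + m ^ 2 : ℕ) : ℤ) = a ^ 2 + (m : ℤ) ^ 2 := by
    intro m
    push_cast
    rw [sq_abs]
  have hnat : ∀ m : ℕ, (a ^ 2 + (m : ℤ) ^ 2).natAbs = a.natAbs ^ 2 + m ^ 2 := by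
    intro m
    rw [← hcast m, Int.natAbs_natCast]
  have hfl : ∀ m : ℕ, 1 ≤ m → (m ≤ ⌊Real.sqrt (x - (a : ℝ) ^ 2)⌋₊ ↔ a.natAbs ^ 2 + m ^ 2 ≤ ⌊x⌋₊) := by
    intro m hm
    have hm1 : (1 : ℝ) ≤ m := by exact_mod_cast hm
    rw [Nat.le_floor_iff (Real.sqrt_nonneg _), Nat.le_floor_iff hx, Real.le_sqrt' (by linarith)]
    have h1 : ((a.natAbs ^ 2 + m ^ 2 : ℕ) : ℝ) = (a : ℝ) ^ 2 + (m : ℝ) ^ 2 := by
      push_cast
      rw [Nat.cast_natAbs]
      push_cast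
      rw [sq_abs]
    rw [h1]
    constructor
    · intro h
      linarith
    · intro h
      linarith
  have ha0 : a ≠ 0 := by omega
  have hN : ∀ m : ℕ, (a.natAbs ^ 2 + m ^ 2) % N = c % N ↔ (a ^ 2 + (m : ℤ) ^ 2) % (N : ℤ) = (c : ℤ) % (N : ℤ) := by
    intro m
    rw [← hcast m]
    norm_cast
  -- the key fact at a prime `p = a² + m²`
  have key : ∀ m : ℕ, m % 2 = 0 → (a.natAbs ^ 2 + m ^ 2).Prime → ¬ (a.natAbs ^ 2 + m ^ 2) ∣ 2 * ∏ j, D j → ∀ j,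
      (trace (E j) (a.natAbs ^ 2 + m ^ 2) = s j * (2 * a) ↔
        jacobiSym (D j) (a.natAbs ^ 2 + m ^ 2) = s j * ZMod.χ₄ ((a + m : ℤ) : ZMod 4)) := by
    intro m hm hp hd j
    have : Fact (a.natAbs ^ 2 + m ^ 2).Prime := ⟨hp⟩
    rw [trace_eq ISO.iso (hE j) (ne_two_of hd) (not_dvd_of hd j), an_prime hp (hcast m).symm ha (by omega)]
    have hpm := chi_pm (n := a + m) (by omega)
    set χ : ℤ := ZMod.χ₄ ((a + m : ℤ) : ZMod 4) with hχ
    set J : ℤ := jacobiSym (D j) (a.natAbs ^ 2 + m ^ 2) with hJ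
    have hχ2 : χ * χ = 1 := by
      rcases hpm with h | h <;> rw [h] <;> norm_num
    constructor
    · intro h
      have h3 : (J * χ) * (2 * a) = s j * (2 * a) := by linear_combination h
      have h4 : J * χ = s j := mul_right_cancel₀ (by omega) h3
      calc J = J * (χ * χ) := by rw [hχ2, mul_one]
        _ = (J * χ) * χ := by ring
        _ = s j * χ := by rw [h4]
    · intro h
      rw [h]
      calc s j * χ * (2 * χ * a) = s j * (2 * a) * (χ * χ) := by ring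
        _ = s j * (2 * a) := by rw [hχ2, mul_one]
  unfold count
  symm
  apply card_bij (fun m _ => a.natAbs ^ 2 + m ^ 2)
  · intro m hm
    rw [mem_filter, mem_Icc] at hm
    obtain ⟨⟨hm1, hm2⟩, hp, h1, h2, h3, h4⟩ := hm
    rw [hfl m hm1] at hm2
    rw [mem_filter, mem_Icc]
    have hm20 : m % 2 = 0 := by omega
    have hDj : ∀ j, ¬ (a.natAbs ^ 2 + m ^ 2) ∣ D j := by
      intro j hd
      have h5 := h4 j
      rw [hnat] at h5
      have h6 : jacobiSym (D j) (a.natAbs ^ 2 + m ^ 2) = 0 := by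
        rw [jacobiSym.eq_zero_iff]
        refine ⟨hp.ne_zero, ?_⟩
        rw [Int.gcd_natCast_natCast, Nat.gcd_eq_right hd]
        exact hp.one_lt.ne'
      rw [h6] at h5
      have h7 := chi_pm (n := a + m) (by omega)
      rcases h7 with h7 | h7 <;> rcases hs j with h8 | h8 <;> rw [h7, h8] at h5 <;> norm_num at h5
    have hd : ¬ (a.natAbs ^ 2 + m ^ 2) ∣ 2 * ∏ j, D j := by
      intro hd
      rcases (Nat.Prime.dvd_mul hp).1 hd with h | h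
      · have h1 : a.natAbs ^ 2 + m ^ 2 = 2 := (Nat.prime_dvd_prime_iff_eq hp Nat.prime_two).1 h
        have h3 : 2 ≤ m := by omega
        nlinarith
      · obtain ⟨j, -, hj⟩ := (Prime.dvd_finset_prod_iff hp.prime D).1 h
        exact hDj j hj
    refine ⟨⟨hp.one_lt.le, hm2⟩, hp, hd, (hN m).2 h3, fun j => ?_⟩
    rw [key m hm20 hp hd j, ← hnat]
    exact h4 j
  · intro m _ m' _ h
    have : m ^ 2 = m' ^ 2 := by
      have h1 : a.natAbs ^ 2 + m ^ 2 = a.natAbs ^ 2 + m' ^ 2 := h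
      omega
    exact Nat.pow_left_injective (by norm_num) this
  · intro p hp
    rw [mem_filter, mem_Icc] at hp
    obtain ⟨⟨-, hpx⟩, hp, hD, hc, ht⟩ := hp
    beta_reduce at ht
    have h0 := tr_eq_trace hE hp hD 0
    rw [ht 0, hs0, one_mul] at h0
    obtain ⟨b, m, h1, h2, h3, h4, h5⟩ := exists_rep_of_trace (D 0) hp (nd2 hp hD 0) (by rw [h0]; omega)
    have hab : b = a := by
      rw [h0] at h5
      omega
    subst hab
    have hmn : ((m.toNat : ℕ) : ℤ) = m := Int.toNat_of_nonneg (by omega)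
    have hpe : b.natAbs ^ 2 + m.toNat ^ 2 = p := by
      have := hcast m.toNat
      rw [hmn, h1] at this
      exact_mod_cast this
    have hm20 : m.toNat % 2 = 0 := by omega
    refine ⟨m.toNat, ?_, hpe⟩
    rw [mem_filter, mem_Icc]
    refine ⟨⟨by omega, ?_⟩, ?_, ?_⟩
    · rw [hfl _ (by omega), hpe]
      exact hpx
    · rw [hpe]
      exact hp
    · refine ⟨ha, by rw [hmn]; exact h3, ?_, fun j => ?_⟩
      · rw [← hN, hpe]
        exact hc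
      · rw [hnat]
        rw [← key m.toNat hm20 (by rw [hpe]; exact hp) (by rw [hpe]; exact hD) j, hpe]
        exact ht j

end Pool.Agent.H533.JT
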