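import Mathlib

/-!
# Project JT (helper533): character sums of curves isogenous to `y² = x³ - n² x`
-/

set_option autoImplicit false

namespace Pool.Agent.H533.JT

open Finset

/-- (ISO) the curves `x³ + n² x` (2-isogenous to `x³ - 4 n² x`) and `x³ - 11 n² x ± 14 n³` (2-isogenous to `x³ - 16 n² x`, a twist by 4
of `x³ - n² x`).

Proof. Write `χ` for the quadratic character, `S(f) = ∑ χ(f x)`.
(a) ISOGENY: for `b ≠ 0`: `S(x (x² + a x + b)) = S(x (x² - 2 a x + a² - 4 b))`. For `x ≠ 0`: `χ(x (x² + a x + b)) = χ(x² (x + b / x + a)) =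
χ(x + b/x + a)`. Group by `t = x + b/x`: the number of `x ≠ 0` with `x² - t x + b = 0` is `1 + χ(t² - 4 b)` (all roots are nonzero
since `b ≠ 0`; `quadraticChar_card_sqrts` for `(2x - t)² = t² - 4b`). So the sum is `∑_t χ(t + a) (1 + χ(t² - 4 b)) =
∑_t χ((t + a)(t² - 4 b))` since `∑ χ = 0` (`quadraticChar_sum_zero`), and `s = t + a` gives `s (s² - 2 a s + a² - 4 b)`.
(b) first statement: `a = 0`, `b = n²`: `x (x² - 4 n²)`.
(c) second: `x³ - 11 n² x + 14 n³ = (x - 2n)(x² + 2 n x - 7 n²)`; `x → x + 2 n`: `x (x² + 6 n x + n²)`; isogeny with `a = 6 n`, `b = n²`: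
`x (x² - 12 n x + 32 n²) = x (x - 4 n)(x - 8 n)`, `x → x + 4 n`: `x (x² - 16 n²)`; and `x → 4 x`: `64 x (x² - n²)`, `64 = 8²`.
(d) third: `x → - x` gives the factor `χ(-1)`; if `χ(-1) = 1` it is (c) and if `χ(-1) = -1` then `S(x³ - n² x) = 0` by `x → -x`, so both
sums vanish. -/
def S_ISO : Prop := ∀ (p : ℕ) [Fact p.Prime], p ≠ 2 → ∀ n : ZMod p, n ≠ 0 →
  (∑ x : ZMod p, quadraticChar (ZMod p) (x ^ 3 + n ^ 2 * x) = ∑ x : ZMod p, quadraticChar (ZMod p) (x ^ 3 - (2 * n) ^ 2 * x)) ∧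
  (∑ x : ZMod p, quadraticChar (ZMod p) (x ^ 3 - 11 * n ^ 2 * x + 14 * n ^ 3) =
    ∑ x : ZMod p, quadraticChar (ZMod p) (x ^ 3 - n ^ 2 * x)) ∧
  (∑ x : ZMod p, quadraticChar (ZMod p) (x ^ 3 - 11 * n ^ 2 * x - 14 * n ^ 3) =
    ∑ x : ZMod p, quadraticChar (ZMod p) (x ^ 3 - n ^ 2 * x))

end Pool.Agent.H533.JT
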