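import Pool.Agent.H533.JT.Gen
import Pool.Agent.H533.JT.StmI

/-!
# Project JT (helper533): traces of Frobenius of the curves isogenous to `y² = x³ - D² x`
-/

set_option autoImplicit false

namespace Pool.Agent.H533.JT

open Finset Pool.Agent.N782.GN Pool.Agent.N782.GN.LT Pool.Agent.H304R2.EC Pool.Agent.H304R2.EC.Pts

/-- The number of the solutions `(x, y)` of `y² = x³ + A x + B` modulo `p`, which is `|E(𝔽_p)| - 1`. -/
def points (A B : ℤ) (p : ℕ) : ℕ :=
  ((range p ×ˢ range p).filter (fun xy : ℕ × ℕ => (p : ℤ) ∣ (xy.2 : ℤ) ^ 2 - ((xy.1 : ℤ) ^ 3 + A * xy.1 + B))).card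

/-- The trace `a_p(E) = p + 1 - |E(𝔽_p)|` for `E : y² = x³ + A x + B`, `E = (A, B)`. -/
def trace (E : ℤ × ℤ) (p : ℕ) : ℤ := (p : ℤ) - points E.1 E.2 p

/-- `E : y² = x³ + A x + B` is one of `y² = x³ - D² x`, `y² = x³ + (D/2)² x` (`D` even), `y² = x³ - 11 D² x ± 14 D³`. -/
def Gauss (E : ℤ × ℤ) (D : ℕ) : Prop :=
  1 ≤ D ∧ ((E.1 = -(D : ℤ) ^ 2 ∧ E.2 = 0) ∨ (4 * E.1 = (D : ℤ) ^ 2 ∧ E.2 = 0) ∨
    (E.1 = -11 * (D : ℤ) ^ 2 ∧ (E.2 = 14 * (D : ℤ) ^ 3 ∨ E.2 = -14 * (D : ℤ) ^ 3)))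

variable {p : ℕ} [hF : Fact p.Prime]

theorem trace_sum (A B : ℤ) (h2 : p ≠ 2) :
    trace (A, B) p = - ∑ x : ZMod p, quadraticChar (ZMod p) (x ^ 3 + (A : ZMod p) * x + (B : ZMod p)) := by
  have hcard : ((points A B p : ℕ) : ℤ) =
      ∑ x : ZMod p, (((univ : Finset (ZMod p)).filter fun y => y ^ 2 = x ^ 3 + (A : ZMod p) * x + (B : ZMod p)).card : ℤ) := by
    unfold points
    rw [← Nat.cast_sum, ← Finset.card_sigma]
    congr 1
    refine Finset.card_bij' (fun xy _ => (⟨(xy.1 : ZMod p), (xy.2 : ZMod p)⟩ : Σ _ : ZMod p, ZMod p))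
      (fun q _ => (q.1.val, q.2.val)) ?_ ?_ ?_ ?_
    · rintro ⟨x, y⟩ h
      simp only [mem_filter, mem_product, mem_range] at h
      simp only [mem_sigma, mem_univ, mem_filter, true_and]
      obtain ⟨_, h⟩ := h
      rw [← ZMod.intCast_zmod_eq_zero_iff_dvd] at h
      push_cast at h
      linear_combination h
    · rintro ⟨x, y⟩ h
      simp only [mem_sigma, mem_univ, mem_filter, true_and] at h
      simp only [mem_filter, mem_product, mem_range]
      refine ⟨⟨ZMod.val_lt _, ZMod.val_lt _⟩, ?_⟩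
      rw [← ZMod.intCast_zmod_eq_zero_iff_dvd]
      push_cast
      simp only [ZMod.natCast_val, ZMod.cast_id', id_eq]
      linear_combination h
    · rintro ⟨x, y⟩ h
      simp only [mem_filter, mem_product, mem_range] at h
      simp only [Prod.mk.injEq]
      exact ⟨ZMod.val_cast_of_lt h.1.1, ZMod.val_cast_of_lt h.1.2⟩
    · rintro ⟨x, y⟩ h
      simp
  have hfib : ∀ x : ZMod p, (((univ : Finset (ZMod p)).filter
      fun y => y ^ 2 = x ^ 3 + (A : ZMod p) * x + (B : ZMod p)).card : ℤ) =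
      quadraticChar (ZMod p) (x ^ 3 + (A : ZMod p) * x + (B : ZMod p)) + 1 := by
    intro x
    have := quadraticChar_card_sqrts (rc h2) (x ^ 3 + (A : ZMod p) * x + (B : ZMod p))
    rw [← this]
    congr 2
    ext y
    simp
  unfold trace
  simp only
  rw [hcard]
  simp_rw [hfib]
  rw [Finset.sum_add_distrib, sum_const, card_univ, ZMod.card]
  simp only [nsmul_eq_mul, mul_one]
  ring

theorem sum_an (D : ℕ) (h2 : p ≠ 2) (hD : ¬ p ∣ D) :
    - ∑ x : ZMod p, quadraticChar (ZMod p) (x ^ 3 - (D : ZMod p) ^ 2 * x) = jacobiSym D p * an p := by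
  have h1 := trace_sum (p := p) (-(D : ℤ) ^ 2) 0 h2
  have h2' : trace (-(D : ℤ) ^ 2, 0) p = tr D p := by
    unfold trace tr points pts
    congr 3
    ext ⟨x, y⟩
    simp only [mem_filter, and_congr_right_iff]
    intro _
    ring_nf
  rw [← tr_eq D h2 hD, ← h2', h1]
  congr 1
  refine sum_congr rfl fun x _ => ?_
  congr 1
  push_cast
  ring

/-- the traces of the curves -/
theorem trace_eq (hiso : S_ISO) {E : ℤ × ℤ} {D : ℕ} (hE : Gauss E D) (h2 : p ≠ 2) (hD : ¬ p ∣ D) :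
    trace E p = jacobiSym D p * an p := by
  obtain ⟨A, B⟩ := E
  obtain ⟨-, hE⟩ := hE
  simp only at hE
  rw [trace_sum A B h2, ← sum_an D h2 hD]
  have hD0 : (D : ZMod p) ≠ 0 := by
    rw [Ne, ZMod.natCast_eq_zero_iff]
    exact hD
  have h20 : (2 : ZMod p) ≠ 0 := by
    have : ((2 : ℕ) : ZMod p) ≠ 0 := by
      rw [Ne, ZMod.natCast_eq_zero_iff]
      intro h
      exact h2 ((Nat.prime_dvd_prime_iff_eq hF.out Nat.prime_two).1 h)
    exact_mod_cast this
  rcases hE with ⟨hA, hB⟩ | ⟨hA, hB⟩ | ⟨hA, hB⟩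
  · congr 1
    refine sum_congr rfl fun x _ => ?_
    congr 1
    rw [hA, hB]
    push_cast
    ring
  · have hA' : (4 : ZMod p) * (A : ZMod p) = (D : ZMod p) ^ 2 := by exact_mod_cast congrArg (Int.cast : ℤ → ZMod p) hA
    have hn : (D : ZMod p) / 2 ≠ 0 := div_ne_zero hD0 h20
    have h := (hiso p h2 ((D : ZMod p) / 2) hn).1
    have e1 : (2 : ZMod p) * ((D : ZMod p) / 2) = (D : ZMod p) := by field_simp
    rw [e1] at h
    rw [← h]
    congr 1
    refine sum_congr rfl fun x _ => ?_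
    congr 1
    have e2 : (A : ZMod p) = ((D : ZMod p) / 2) ^ 2 := by
      rw [div_pow, eq_div_iff (pow_ne_zero 2 h20)]
      rw [← hA']
      ring
    rw [hB, e2]
    push_cast
    ring
  · obtain ⟨-, ha, hb⟩ := hiso p h2 (D : ZMod p) hD0
    rcases hB with hB | hB
    · rw [← ha]
      congr 1
      refine sum_congr rfl fun x _ => ?_
      congr 1
      rw [hA, hB]
      push_cast
      ring
    · rw [← hb]
      congr 1
      refine sum_congr rfl fun x _ => ?_
      congr 1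
      rw [hA, hB]
      push_cast
      ring

end Pool.Agent.H533.JT
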