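import Pool.Agent.H533.JT.Tr

/-!
# Project JT (helper533): the condition on `m` which belongs to a system of curves, a vector of traces and a progression
-/

set_option autoImplicit false

namespace Pool.Agent.H533.JT

open Finset Pool.Agent.N782.GN Pool.Agent.N782.GN.LT Pool.Agent.H304R2.EC Pool.Agent.H304R2.EC.Pts

/-- the condition -/
def HJ {k : ℕ} (D : Fin (k + 1) → ℕ) (s : Fin (k + 1) → ℤ) (N c : ℕ) (a m : ℤ) : Prop :=
  a % 2 = 1 ∧ m % 2 = 0 ∧ (a ^ 2 + m ^ 2) % (N : ℤ) = (c : ℤ) % (N : ℤ) ∧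
    ∀ j, jacobiSym (D j) (a ^ 2 + m ^ 2).natAbs = s j * ZMod.χ₄ ((a + m : ℤ) : ZMod 4)

/-- the Jacobi symbol and the character modulo 4 are periodic -/
theorem jac_congr {D : ℕ} {a m a' m' : ℤ} (ha : ((4 * D : ℕ) : ℤ) ∣ a - a') (hm : ((4 * D : ℕ) : ℤ) ∣ m - m')
    (h1 : a % 2 = 1) (h2 : m % 2 = 0) :
    a' % 2 = 1 ∧ m' % 2 = 0 ∧
    jacobiSym D (a' ^ 2 + m' ^ 2).natAbs = jacobiSym D (a ^ 2 + m ^ 2).natAbs ∧
    ZMod.χ₄ ((a' + m' : ℤ) : ZMod 4) = ZMod.χ₄ ((a + m : ℤ) : ZMod 4) := by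
  obtain ⟨u, hu⟩ := ha
  obtain ⟨v, hv⟩ := hm
  push_cast at hu hv
  have ha2 : a' % 2 = 1 := by
    have : a = a' + 2 * (2 * D * u) := by linarith
    omega
  have hm2 : m' % 2 = 0 := by
    have : m = m' + 2 * (2 * D * v) := by linarith
    omega
  have hodd : ∀ x y : ℤ, x % 2 = 1 → y % 2 = 0 → Odd (x ^ 2 + y ^ 2).natAbs := by
    intro x y hx hy
    rw [Int.natAbs_odd]
    have h5 : Odd x := Int.odd_iff.2 hx
    have h6 : Even y := Int.even_iff.2 hy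
    exact (h5.pow).add_even (h6.pow_of_ne_zero two_ne_zero)
  have e1 : (a ^ 2 + m ^ 2).natAbs % (4 * (D : ℤ).natAbs) = (a' ^ 2 + m' ^ 2).natAbs % (4 * (D : ℤ).natAbs) := by
    rw [Int.natAbs_natCast]
    zify
    rw [abs_of_nonneg (by positivity), abs_of_nonneg (by positivity)]
    apply Int.emod_eq_emod_iff_emod_sub_eq_zero.2
    apply Int.emod_eq_zero_of_dvd
    refine ⟨u * (a + a') + v * (m + m'), ?_⟩
    have h7 : a ^ 2 + m ^ 2 - (a' ^ 2 + m' ^ 2) = (a - a') * (a + a') + (m - m') * (m + m') := by ring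
    rw [h7, hu, hv]
    ring
  refine ⟨ha2, hm2, ?_, ?_⟩
  · rw [jacobiSym.mod_right (D : ℤ) (hodd a m h1 h2), e1, ← jacobiSym.mod_right (D : ℤ) (hodd a' m' ha2 hm2)]
  · have e2 : (a + m) % 4 = (a' + m') % 4 := by
      have : a + m = a' + m' + 4 * (D * u + D * v) := by linarith
      omega
    rw [ZMod.χ₄_int_mod_four (a + m), e2, ← ZMod.χ₄_int_mod_four]

theorem adm_HJ {k : ℕ} {D : Fin (k + 1) → ℕ} {s : Fin (k + 1) → ℤ} {N c : ℕ} (hD : ∀ j, 1 ≤ D j) (hN : 1 ≤ N)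
    (hs : ∀ j, s j = 1 ∨ s j = -1) (hc : c.Coprime N) : Adm (4 * (N * ∏ j, D j)) (HJ D s N c) := by
  have hP : 1 ≤ ∏ j, D j := Nat.one_le_iff_ne_zero.2 (prod_ne_zero_iff.2 fun j _ => by have := hD j; omega)
  have hdvd : ∀ j, ((4 * D j : ℕ) : ℤ) ∣ ((4 * (N * ∏ j, D j) : ℕ) : ℤ) := by
    intro j
    rw [Int.natCast_dvd_natCast]
    exact Nat.mul_dvd_mul_left 4 (Dvd.dvd.mul_left (dvd_prod_of_mem D (mem_univ j)) N)
  have hdvdN : (N : ℤ) ∣ ((4 * (N * ∏ j, D j) : ℕ) : ℤ) := by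
    rw [Int.natCast_dvd_natCast]
    exact Dvd.dvd.mul_left (dvd_mul_right _ _) 4
  have key : ∀ a m a' m' : ℤ, ((4 * (N * ∏ j, D j) : ℕ) : ℤ) ∣ a - a' → ((4 * (N * ∏ j, D j) : ℕ) : ℤ) ∣ m - m' →
      HJ D s N c a m → HJ D s N c a' m' := by
    rintro a m a' m' ha hm ⟨h1, h2, h3, h4⟩
    obtain ⟨h5, h6, -, -⟩ := jac_congr (D := D 0) ((hdvd 0).trans ha) ((hdvd 0).trans hm) h1 h2
    refine ⟨h5, h6, ?_, fun j => ?_⟩
    · rw [← h3]
      apply Int.emod_eq_emod_iff_emod_sub_eq_zero.2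
      apply Int.emod_eq_zero_of_dvd
      obtain ⟨u, hu⟩ := hdvdN.trans ha
      obtain ⟨v, hv⟩ := hdvdN.trans hm
      refine ⟨-(u * (a + a') + v * (m + m')), ?_⟩
      have h7 : a' ^ 2 + m' ^ 2 - (a ^ 2 + m ^ 2) = -((a - a') * (a + a') + (m - m') * (m + m')) := by ring
      rw [h7, hu, hv]
      ring
    · obtain ⟨-, -, h7, h8⟩ := jac_congr (D := D j) ((hdvd j).trans ha) ((hdvd j).trans hm) h1 h2
      rw [h7, h8]
      exact h4 j
  have keye : ∀ a m : ℤ, HJ D s N c a m → HJ D s N c a (-m) := by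
    rintro a m ⟨h1, h2, h3, h4⟩
    refine ⟨h1, by omega, by rw [neg_sq]; exact h3, fun j => ?_⟩
    rw [neg_sq, h4 j]
    have e2 : (a + m) % 4 = (a + -m) % 4 := by omega
    rw [ZMod.χ₄_int_mod_four (a + m), e2, ← ZMod.χ₄_int_mod_four]
  refine ⟨?_, ?_, ?_, ?_⟩
  · have : 1 ≤ N * ∏ j, D j := Nat.one_le_iff_ne_zero.2 (by
      apply Nat.mul_ne_zero
      · omega
      · omega)
    omega
  · intro a m a' m' ha hm
    constructor
    · exact key a m a' m' ha hm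
    · refine key a' m' a m ?_ ?_
      · rw [← neg_sub]
        exact (dvd_neg).2 ha
      · rw [← neg_sub]
        exact (dvd_neg).2 hm
  · intro a m
    constructor
    · intro h
      have := keye a (-m) h
      rwa [neg_neg] at this
    · exact keye a m
  · rintro a m ⟨h1, h2, h3, h4⟩
    have hpm := chi_pm (n := a + m) (by omega)
    have hn : (((a ^ 2 + m ^ 2).natAbs : ℕ) : ℤ) = a ^ 2 + m ^ 2 := by
      rw [Int.natCast_natAbs, abs_of_nonneg (by positivity)]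
    have hDj : ∀ j, IsCoprime (a ^ 2 + m ^ 2) (D j : ℤ) := by
      intro j
      have hJ : jacobiSym (D j) (a ^ 2 + m ^ 2).natAbs ≠ 0 := by
        rw [h4 j]
        rcases hpm with h | h <;> rcases hs j with h' | h' <;> rw [h, h'] <;> norm_num
      have h5 : Int.gcd (D j) (a ^ 2 + m ^ 2).natAbs = 1 := by
        by_contra hc'
        apply hJ
        rw [jacobiSym.eq_zero_iff]
        refine ⟨?_, hc'⟩
        intro h0
        rw [h0] at hn
        have : a ≠ 0 := by omega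
        have h5 : 0 < a ^ 2 + m ^ 2 := by positivity
        rw [← hn] at h5
        simp at h5
      rw [hn, Int.gcd_comm] at h5
      exact Int.isCoprime_iff_gcd_eq_one.2 h5
    have h6 : IsCoprime (a ^ 2 + m ^ 2) (4 : ℤ) := by
      have h7 : IsCoprime (a ^ 2 + m ^ 2) (2 : ℤ) := by
        have h8 : (a ^ 2 + m ^ 2) % 2 = 1 := by
          have h9 : Odd (a ^ 2 + m ^ 2) :=
            ((Int.odd_iff.2 h1).pow).add_even ((Int.even_iff.2 h2).pow_of_ne_zero two_ne_zero)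
          exact Int.odd_iff.1 h9
        refine ⟨1, -((a ^ 2 + m ^ 2) / 2), ?_⟩
        omega
      have : (4 : ℤ) = 2 * 2 := by norm_num
      rw [this]
      exact h7.mul_right h7
    have h7 : IsCoprime (a ^ 2 + m ^ 2) (N : ℤ) := by
      have h8 : IsCoprime (c : ℤ) (N : ℤ) := Nat.isCoprime_iff_coprime.2 hc
      have h9 : (N : ℤ) ∣ (a ^ 2 + m ^ 2) - c :=
        Int.ModEq.dvd (show (c : ℤ) ≡ a ^ 2 + m ^ 2 [ZMOD (N : ℤ)] from h3.symm)
      obtain ⟨w, hw⟩ := h9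
      have h10 : a ^ 2 + m ^ 2 = c + N * w := by linarith
      rw [h10]
      exact IsCoprime.add_mul_left_left h8 w
    have h8 : IsCoprime (a ^ 2 + m ^ 2) (∏ j, (D j : ℤ)) := IsCoprime.prod_right fun j _ => hDj j
    push_cast
    exact h6.mul_right (h7.mul_right h8)

end Pool.Agent.H533.JT
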