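import Pool.Agent.H533.JT.Cst

/-!
# Project JT (helper533): the joint law for almost all traces
-/

set_option autoImplicit false

namespace Pool.Agent.H533.JT

open Finset Filter Topology Pool.Agent.N782.GN Pool.Agent.N782.GN.LT

variable {k : ℕ}

/-- The conclusion for the vectors of traces `(±t, …, ±t)`: for all signs and all `c` coprime to `N` there is `C ≥ 0`, the
constant of `IsConstant`, positive if and only if `classes` is, with
`|count - C ∫_2^√x du / (2 log u)| ≤ √x / (log x) ^ A` for all real `x` from `R ^ (2 + ε)` to `R ^ (3 - ε)`. -/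
def Good (E : Fin (k + 1) → ℤ × ℤ) (D : Fin (k + 1) → ℕ) (N : ℕ) (ε : ℝ) (A : ℕ) (R : ℝ) (t : ℤ) : Prop :=
  ∀ r : Fin (k + 1) → ℤ, (∀ j, |r j| = |t|) → ∀ c : ℕ, c.Coprime N → ∃ C : ℝ, 0 ≤ C ∧ (0 < C ↔ 0 < classes D N c r) ∧
    IsConstant D N c r C ∧ ∀ x : ℝ, R ^ (2 + ε) ≤ x → x ≤ R ^ (3 - ε) →
      |(count E D N c r x : ℝ) - C * ∫ u in (2 : ℝ)..(Real.sqrt x), 1 / (2 * Real.log u)| ≤ Real.sqrt x / Real.log x ^ A

open Classical in
/-- The number of the integers `t` with `|t| ≤ R` for which `Good` fails. -/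
noncomputable def exceptions (E : Fin (k + 1) → ℤ × ℤ) (D : Fin (k + 1) → ℕ) (N : ℕ) (ε : ℝ) (A : ℕ) (R : ℝ) : ℕ :=
  ((Icc ⌈-R⌉ ⌊R⌋).filter (fun t : ℤ => ¬ Good E D N ε A R t)).card

theorem count_mod (E : Fin (k + 1) → ℤ × ℤ) (D : Fin (k + 1) → ℕ) (N c : ℕ) (r : Fin (k + 1) → ℤ) (x : ℝ) :
    count E D N (c % N) r x = count E D N c r x := by
  unfold count
  rw [Nat.mod_mod]

theorem classes_mod (D : Fin (k + 1) → ℕ) (N c : ℕ) (r : Fin (k + 1) → ℤ) : classes D N (c % N) r = classes D N c r := by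
  unfold classes
  have : (((c % N : ℕ) : ℤ)) % (N : ℤ) = (c : ℤ) % (N : ℤ) := by
    rw [← Int.natCast_mod, ← Int.natCast_mod, Nat.mod_mod]
  rw [this]

theorem one_vec {E : Fin (k + 1) → ℤ × ℤ} {D : Fin (k + 1) → ℕ} (hE : ∀ j, Gauss (E j) (D j)) {N c : ℕ} (hN : 1 ≤ N)
    (hc : c.Coprime N) {s : Fin (k + 1) → ℤ} (hs : ∀ j, s j = 1 ∨ s j = -1) (hs0 : s 0 = 1) (ε : ℝ) (A : ℕ) (hε : 0 < ε)
    (hε2 : ε ≤ 1 / 2) :
    ∃ R₀ : ℝ, ∀ R : ℝ, R₀ ≤ R → ∀ (σ : ℤ) (l : ℕ), (σ = 1 ∨ σ = -1) → 1 ≤ l → (l : ℝ) ≤ R / 2 → l % 2 = 1 →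
      GoodH (4 * (N * ∏ j, D j)) (HJ D s N c) σ (ε / 4) (A + 1) (R / 2) l → ∀ x : ℝ, R ^ (2 + ε) ≤ x → x ≤ R ^ (3 - ε) →
      |(count E D N c (fun j => s j * (2 * (σ * l))) x : ℝ) - ((classes D N c (fun j => s j * (2 * (σ * l))) : ℝ) /
        (Nat.totient (4 * (N * ∏ j, D j)) : ℝ) * (SS l / FF (N * ∏ j, D j) l)) *
        ∫ u in (2 : ℝ)..(Real.sqrt x), 1 / (2 * Real.log u)| ≤ Real.sqrt x / Real.log x ^ A := by
  classical
  have hA := adm_HJ (D := D) (fun j => (hE j).1) hN hs hc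
  obtain ⟨R₀, h⟩ := good_tr hA ε A hε hε2
  refine ⟨max R₀ 1, fun R hR σ l hσ hl1 hlR hodd hg x hx1 hx2 => ?_⟩
  have h1 := h R ((le_max_left _ _).trans hR) σ l hσ hl1 hlR hg x hx1 hx2
  have hR1 : 1 ≤ R := (le_max_right _ _).trans hR
  have hx0 : 0 < x := lt_of_lt_of_le (by positivity) hx1
  have hσ2 : σ ^ 2 = 1 := by rcases hσ with h | h <;> rw [h] <;> norm_num
  have ha : (σ * l : ℤ) % 2 = 1 := by
    rcases hσ with h | h <;> rw [h] <;> omega
  have hna : (σ * l : ℤ).natAbs = l := by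
    rcases hσ with h | h <;> rw [h] <;> simp
  have hpi : (count E D N c (fun j => s j * (2 * (σ * l))) x : ℝ) =
      PP (cH (HJ D s N c) σ l) l ⌊Real.sqrt (x - (l : ℝ) ^ 2)⌋₊ := by
    rw [count_eq hE N c s hs hs0 (σ * l) x hx0.le ha]
    unfold PP cH
    have e1 : Real.sqrt (x - (((σ * l : ℤ)) : ℝ) ^ 2) = Real.sqrt (x - (l : ℝ) ^ 2) := by
      congr 2
      push_cast
      rw [mul_pow]
      have : ((σ : ℝ)) ^ 2 = 1 := by exact_mod_cast hσ2
      rw [this, one_mul]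
    rw [e1, hna, card_filter]
    push_cast
    refine sum_congr rfl fun m _ => ?_
    by_cases h1 : (l ^ 2 + m ^ 2).Prime
    · by_cases h2 : HJ D s N c (σ * l) m
      · rw [if_pos ⟨h1, h2⟩, if_pos h2, if_pos h1, mul_one]
      · rw [if_neg (fun h => h2 h.2), if_neg h2, zero_mul]
    · rw [if_neg (fun h => h1 h.1), if_neg h1, mul_zero]
  rw [hpi, ← sH_eq D (fun j => (hE j).1) N c hN s hs hs0 (σ * l) l ha σ rfl]
  exact h1

theorem main {E : Fin (k + 1) → ℤ × ℤ} {D : Fin (k + 1) → ℕ} (hE : ∀ j, Gauss (E j) (D j)) {N : ℕ} (hN : 1 ≤ N)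
    (ε : ℝ) (A : ℕ) (hε : 0 < ε) : ∃ R₀ : ℝ, ∀ R : ℝ, R₀ ≤ R → (exceptions E D N ε A R : ℝ) ≤ R / Real.log R ^ A := by
  classical
  have hP : 1 ≤ ∏ j, D j := Nat.one_le_iff_ne_zero.2 (prod_ne_zero_iff.2 fun j _ => by have := (hE j).1; omega)
  have hQ1 : 1 ≤ N * ∏ j, D j := Nat.one_le_iff_ne_zero.2 (Nat.mul_ne_zero (by omega) (by omega))
  have hφ : (0 : ℝ) < (Nat.totient (4 * (N * ∏ j, D j)) : ℝ) := by
    have : 0 < Nat.totient (4 * (N * ∏ j, D j)) := Nat.totient_pos.2 (by omega)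
    exact_mod_cast this
  -- the zero case
  have hzero : ∀ (r : Fin (k + 1) → ℤ) (c : ℕ) (R : ℝ), 1 ≤ R → r 0 ≠ 0 → r 0 % 4 ≠ 2 → ∃ C : ℝ, 0 ≤ C ∧
      (0 < C ↔ 0 < classes D N c r) ∧ IsConstant D N c r C ∧ ∀ x : ℝ, R ^ (2 + ε) ≤ x → x ≤ R ^ (3 - ε) →
      |(count E D N c r x : ℝ) - C * ∫ u in (2 : ℝ)..(Real.sqrt x), 1 / (2 * Real.log u)| ≤
        Real.sqrt x / Real.log x ^ A := by
    intro r c R hR1 hr0 hr4
    have hcl : classes D N c r = 0 := by
      unfold classes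
      rw [card_eq_zero, filter_eq_empty_iff]
      rintro m - ⟨h, -⟩
      exact hr4 h
    refine ⟨0, le_rfl, by rw [hcl]; simp, ?_, fun x hx1 _ => ?_⟩
    · unfold IsConstant
      rw [hcl]
      simp
    · rw [count_zero hE N c r x hr0 hr4]
      have hx0 : 0 < x := lt_of_lt_of_le (by positivity) hx1
      have hx3 : 1 ≤ x := (Real.one_le_rpow hR1 (by linarith)).trans hx1
      have := Real.log_nonneg hx3
      simp only [Nat.cast_zero, zero_mul, sub_zero, abs_zero]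
      positivity
  -- the constants
  have hconst : ∀ (r : Fin (k + 1) → ℤ) (c : ℕ) (l : ℕ), r 0 % 4 = 2 → (l : ℤ) = ((r 0 / 2).natAbs : ℤ) →
      0 ≤ (classes D N c r : ℝ) / (Nat.totient (4 * (N * ∏ j, D j)) : ℝ) * (SS l / FF (N * ∏ j, D j) l) ∧
      (0 < (classes D N c r : ℝ) / (Nat.totient (4 * (N * ∏ j, D j)) : ℝ) * (SS l / FF (N * ∏ j, D j) l) ↔
        0 < classes D N c r) ∧
      IsConstant D N c r ((classes D N c r : ℝ) / (Nat.totient (4 * (N * ∏ j, D j)) : ℝ) *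
        (SS l / FF (N * ∏ j, D j) l)) := by
    intro r c l hr hl
    have hl0 : (l : ℤ) ≠ 0 := by omega
    have hpos := (c_ssl (l : ℤ) hl0).2
    have hK : 0 < SS (l : ℤ) / FF (N * ∏ j, D j) l := div_pos hpos (FF_pos _ _)
    refine ⟨by positivity, ?_, ?_⟩
    · constructor
      · intro h
        by_contra hc
        have h0 : classes D N c r = 0 := by omega
        rw [h0] at h
        simp at h
      · intro h
        have h' : (0 : ℝ) < (classes D N c r : ℝ) := by exact_mod_cast h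
        positivity
    · unfold IsConstant
      apply Tendsto.const_mul
      exact product_lim (N * ∏ j, D j) hQ1 (r 0) hr l hl
  by_cases hε2 : 1 / 2 < ε
  · -- the interval is empty
    refine ⟨3, fun R hR => ?_⟩
    have hR1 : 1 < R := by linarith
    have hsub : (Icc ⌈-R⌉ ⌊R⌋).filter (fun t : ℤ => ¬ Good E D N ε A R t) = ∅ := by
      rw [filter_eq_empty_iff]
      intro t _
      rw [not_not]
      intro r hr c hc
      have hemp : ∀ x : ℝ, R ^ (2 + ε) ≤ x → x ≤ R ^ (3 - ε) → False := by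
        intro x h1 h2
        have h3 : R ^ (3 - ε) < R ^ (2 + ε) := Real.rpow_lt_rpow_of_exponent_lt hR1 (by linarith)
        linarith
      by_cases h4 : r 0 % 4 = 2
      · obtain ⟨h5, h6, h7⟩ := hconst r c (r 0 / 2).natAbs h4 rfl
        exact ⟨_, h5, h6, h7, fun x h1 h2 => (hemp x h1 h2).elim⟩
      · have hcl : classes D N c r = 0 := by
          unfold classes
          rw [card_eq_zero, filter_eq_empty_iff]
          rintro m - ⟨h, -⟩
          exact h4 h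
        refine ⟨0, le_rfl, by rw [hcl]; simp, ?_, fun x h1 h2 => (hemp x h1 h2).elim⟩
        unfold IsConstant
        rw [hcl]
        simp
    unfold exceptions
    rw [hsub, card_empty]
    have : 0 ≤ Real.log R := Real.log_nonneg (by linarith)
    push_cast
    positivity
  push Not at hε2
  set S : Finset (ℤ × (Fin (k + 1) → ℤ) × ℕ) := ({1, -1} : Finset ℤ) ×ˢ
    (Fintype.piFinset (fun _ : Fin (k + 1) => ({1, -1} : Finset ℤ))) ×ˢ ((range N).filter (fun c => c.Coprime N)) with hS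
  have hSmem : ∀ i ∈ S, (i.1 = 1 ∨ i.1 = -1) ∧ (∀ j, i.2.1 j = 1 ∨ i.2.1 j = -1) ∧ i.2.2.Coprime N := by
    intro i hi
    rw [hS, mem_product, mem_product, mem_insert, mem_singleton, Fintype.mem_piFinset, mem_filter] at hi
    refine ⟨hi.1, fun j => ?_, hi.2.2.2⟩
    have := hi.2.1 j
    rwa [mem_insert, mem_singleton] at this
  set q : ℕ := 4 * (N * ∏ j, D j) with hq
  set B : ℝ → (ℤ × (Fin (k + 1) → ℤ) × ℕ) → Finset ℕ := fun R i => (Icc 1 ⌊R / 2⌋₊).filter
    (fun l : ℕ => ¬ GoodH q (HJ D i.2.1 N i.2.2) i.1 (ε / 4) (A + 1) (R / 2) l) with hB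
  -- few bad `l`
  have hfew : ∀ i ∈ S, ∀ᶠ R : ℝ in atTop, ((B R i).card : ℝ) ≤ R / 2 / (Real.log (R / 2)) ^ (A + 1) := by
    intro i hi
    obtain ⟨h1, h2, h3⟩ := hSmem i hi
    have hA := adm_HJ (D := D) (fun j => (hE j).1) hN h2 h3
    obtain ⟨L₁, hL₁, g1⟩ := almost_H hA i.1 (by rcases h1 with h | h <;> rw [h] <;> norm_num) (ε / 4) (A + 1)
      (by positivity) (by linarith)
    filter_upwards [eventually_ge_atTop (2 * L₁)] with R hR
    exact g1 (R / 2) (by linarith)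
  -- the conclusion at a good `l`
  have hcon : ∀ i ∈ S, i.2.1 0 = 1 → ∀ᶠ R : ℝ in atTop, ∀ l : ℕ, 1 ≤ l → (l : ℝ) ≤ R / 2 → l % 2 = 1 →
      GoodH q (HJ D i.2.1 N i.2.2) i.1 (ε / 4) (A + 1) (R / 2) l → ∀ x : ℝ, R ^ (2 + ε) ≤ x → x ≤ R ^ (3 - ε) →
      |(count E D N i.2.2 (fun j => i.2.1 j * (2 * (i.1 * l))) x : ℝ) -
        ((classes D N i.2.2 (fun j => i.2.1 j * (2 * (i.1 * l))) : ℝ) /
        (Nat.totient (4 * (N * ∏ j, D j)) : ℝ) * (SS l / FF (N * ∏ j, D j) l)) *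
        ∫ u in (2 : ℝ)..(Real.sqrt x), 1 / (2 * Real.log u)| ≤ Real.sqrt x / Real.log x ^ A := by
    intro i hi h0
    obtain ⟨h1, h2, h3⟩ := hSmem i hi
    obtain ⟨R₀, h⟩ := one_vec hE hN h3 h2 h0 ε A hε hε2
    filter_upwards [eventually_ge_atTop R₀] with R hR l hl1 hl2 hl3 hg x hx1 hx2
    exact h R hR i.1 l h1 hl1 hl2 hl3 hg x hx1 hx2
  have hcon' : ∀ i ∈ S, ∀ᶠ R : ℝ in atTop, i.2.1 0 = 1 → ∀ l : ℕ, 1 ≤ l → (l : ℝ) ≤ R / 2 → l % 2 = 1 →
      GoodH q (HJ D i.2.1 N i.2.2) i.1 (ε / 4) (A + 1) (R / 2) l → ∀ x : ℝ, R ^ (2 + ε) ≤ x → x ≤ R ^ (3 - ε) →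
      |(count E D N i.2.2 (fun j => i.2.1 j * (2 * (i.1 * l))) x : ℝ) -
        ((classes D N i.2.2 (fun j => i.2.1 j * (2 * (i.1 * l))) : ℝ) /
        (Nat.totient (4 * (N * ∏ j, D j)) : ℝ) * (SS l / FF (N * ∏ j, D j) l)) *
        ∫ u in (2 : ℝ)..(Real.sqrt x), 1 / (2 * Real.log u)| ≤ Real.sqrt x / Real.log x ^ A := by
    intro i hi
    by_cases h0 : i.2.1 0 = 1
    · filter_upwards [hcon i hi h0] with R hR _
      exact hR
    · exact Eventually.of_forall fun R h => absurd h h0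
  have hK : (0 : ℝ) < 2 * (S.card : ℝ) + 1 := by positivity
  have hev := ((((eventually_all_finset S).2 hfew).and ((eventually_all_finset S).2 hcon')).and
    ((ev_log_pow 1 ((2 * (S.card : ℝ) + 1) * 2 ^ (A + 1)) one_pos 0).and (ev_log_rpow 1 one_pos A 2))).and
    (eventually_ge_atTop (16 : ℝ))
  obtain ⟨R₂, h2⟩ := eventually_atTop.1 hev
  refine ⟨R₂, fun R hR => ?_⟩
  obtain ⟨⟨⟨hf, hg⟩, h3, h4⟩, hR16⟩ := h2 R hR
  rw [zero_add, pow_one, one_mul] at h3
  rw [Real.rpow_one] at h4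
  have hR0 : 0 < R := by linarith
  have hR1 : 1 ≤ R := by linarith
  have hsub : (Icc ⌈-R⌉ ⌊R⌋).filter (fun t : ℤ => ¬ Good E D N ε A R t) ⊆
      {0} ∪ S.biUnion (fun i => (B R i).image (fun l : ℕ => (2 * l : ℤ)) ∪ (B R i).image (fun l : ℕ => (-(2 * l) : ℤ))) := by
    intro t ht
    rw [mem_filter, mem_box2] at ht
    obtain ⟨htR, ht⟩ := ht
    rw [mem_union, mem_singleton]
    by_contra hcon2
    push Not at hcon2
    obtain ⟨ht0, hnot⟩ := hcon2
    apply ht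
    intro r hr c hc
    have hr0 : |r 0| = |t| := hr 0
    have hr00 : r 0 ≠ 0 := by
      intro h
      rw [h, abs_zero] at hr0
      exact ht0 (abs_eq_zero.1 hr0.symm)
    by_cases hr4 : r 0 % 4 = 2
    swap
    · exact hzero r c R hR1 hr00 hr4
    -- `r_0 = 2 σ l`
    set l : ℕ := (r 0 / 2).natAbs with hl
    have hl1 : 1 ≤ l := by omega
    have h2l : ((2 * l : ℕ) : ℤ) = |t| := by
      rw [← hr0]
      push_cast
      rw [hl, Int.natCast_natAbs]
      rcases lt_or_gt_of_ne hr00 with h | h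
      · rw [abs_of_neg h, abs_of_neg (by omega)]
        omega
      · rw [abs_of_pos h, abs_of_pos (by omega)]
        omega
    have hlR : (l : ℝ) ≤ R / 2 := by
      have e2 : ((2 * l : ℕ) : ℝ) = |(t : ℝ)| := by
        rw [← Int.cast_abs, ← h2l]
        push_cast
        ring
      rw [← e2] at htR
      push_cast at htR
      linarith
    have hlodd : l % 2 = 1 := by omega
    have hmem : l ∈ Icc 1 ⌊R / 2⌋₊ := by
      rw [mem_Icc]
      exact ⟨hl1, Nat.le_floor hlR⟩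
    obtain ⟨σ, hσ, hσr⟩ : ∃ σ : ℤ, (σ = 1 ∨ σ = -1) ∧ r 0 = 2 * (σ * l) := by
      rcases lt_or_gt_of_ne hr00 with h | h
      · exact ⟨-1, Or.inr rfl, by omega⟩
      · exact ⟨1, Or.inl rfl, by omega⟩
    set s : Fin (k + 1) → ℤ := fun j => if r j = r 0 then 1 else -1 with hs
    have hs0 : s 0 = 1 := by
      rw [hs]
      simp
    have hs1 : ∀ j, s j = 1 ∨ s j = -1 := by
      intro j
      rw [hs]
      beta_reduce
      split_ifs
      · exact Or.inl rfl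
      · exact Or.inr rfl
    have hrs : r = fun j => s j * (2 * (σ * l)) := by
      funext j
      rw [← hσr, hs]
      beta_reduce
      have h5 : |r j| = |r 0| := by rw [hr j, hr0]
      rcases abs_eq_abs.1 h5 with h6 | h6
      · rw [if_pos h6, one_mul, h6]
      · have h7 : r j ≠ r 0 := by omega
        rw [if_neg h7, h6]
        ring
    have hNpos : 0 < N := hN
    have hc' : (c % N).Coprime N := ((Nat.gcd_rec N c).symm.trans (Nat.gcd_comm N c)).trans hc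
    have hiS : (σ, s, c % N) ∈ S := by
      rw [hS, mem_product, mem_product, mem_insert, mem_singleton, Fintype.mem_piFinset, mem_filter, mem_range]
      refine ⟨hσ, fun j => ?_, Nat.mod_lt _ hNpos, hc'⟩
      rw [mem_insert, mem_singleton]
      exact hs1 j
    have hlB : l ∉ B R (σ, s, c % N) := by
      intro hlB
      apply hnot
      rw [mem_biUnion]
      refine ⟨(σ, s, c % N), hiS, ?_⟩
      rw [mem_union, mem_image, mem_image]
      rcases le_or_gt 0 t with h | h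
      · left
        refine ⟨l, hlB, ?_⟩
        rw [abs_of_nonneg h] at h2l
        push_cast at h2l
        exact h2l
      · right
        refine ⟨l, hlB, ?_⟩
        rw [abs_of_neg h] at h2l
        push_cast at h2l
        linarith
    have hgood : GoodH q (HJ D s N (c % N)) σ (ε / 4) (A + 1) (R / 2) l := by
      by_contra hng
      apply hlB
      rw [hB]
      exact mem_filter.2 ⟨hmem, hng⟩
    have hfin := hg (σ, s, c % N) hiS hs0 l hl1 hlR hlodd hgood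
    obtain ⟨h5, h6, h7⟩ := hconst r c l hr4 rfl
    refine ⟨_, h5, h6, h7, fun x hx1 hx2 => ?_⟩
    have h8 := hfin x hx1 hx2
    simp only at h8
    rw [← hrs, count_mod, classes_mod] at h8
    exact h8
  have hcard : (exceptions E D N ε A R : ℝ) ≤ 1 + 2 * ∑ i ∈ S, ((B R i).card : ℝ) := by
    unfold exceptions
    have e1 := (card_le_card hsub).trans (card_union_le _ _)
    have e2 : (S.biUnion (fun i => (B R i).image (fun l : ℕ => (2 * l : ℤ)) ∪
        (B R i).image (fun l : ℕ => (-(2 * l) : ℤ)))).card ≤ ∑ i ∈ S, ((B R i).card + (B R i).card) :=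
      card_biUnion_le.trans (sum_le_sum fun i _ => (card_union_le _ _).trans (add_le_add card_image_le card_image_le))
    rw [card_singleton] at e1
    have e3 := e1.trans (Nat.add_le_add_left e2 1)
    have e4 : ((((Icc ⌈-R⌉ ⌊R⌋).filter (fun t : ℤ => ¬ Good E D N ε A R t)).card : ℕ) : ℝ) ≤
        ((1 + ∑ i ∈ S, ((B R i).card + (B R i).card) : ℕ) : ℝ) := by
      exact_mod_cast e3
    refine e4.trans (le_of_eq ?_)
    push_cast
    rw [mul_sum]
    congr 1
    refine sum_congr rfl fun i _ => ?_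
    ring
  refine hcard.trans ?_
  have hlogR : 1 ≤ Real.log R := by
    rw [Real.le_log_iff_exp_le hR0]
    have := Real.exp_one_lt_d9
    linarith
  have hlogL : Real.log R / 2 ≤ Real.log (R / 2) := by
    have e1 : Real.sqrt R ≤ R / 2 := by
      rw [Real.sqrt_le_left (by positivity)]
      nlinarith
    have e2 := Real.log_le_log (Real.sqrt_pos.2 hR0) e1
    rwa [Real.log_sqrt hR0.le] at e2
  have hsum : ∑ i ∈ S, ((B R i).card : ℝ) ≤ (S.card : ℝ) * (R / 2 / (Real.log (R / 2)) ^ (A + 1)) := by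
    refine (sum_le_sum fun i hi => hf i hi).trans (le_of_eq ?_)
    rw [sum_const, nsmul_eq_mul]
  set ℓ := Real.log R with hℓ
  set K : ℝ := 2 * (S.card : ℝ) + 1 with hKd
  have hℓA : 0 < ℓ ^ A := by positivity
  have k3 : R / 2 / (Real.log (R / 2)) ^ (A + 1) ≤ R / 2 / (K * ℓ ^ A) := by
    apply div_le_div_of_nonneg_left (by positivity) (by positivity)
    calc K * ℓ ^ A ≤ (ℓ / 2) ^ (A + 1) := by
          rw [div_pow, pow_succ ℓ A, le_div_iff₀ (by positivity)]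
          calc K * ℓ ^ A * 2 ^ (A + 1) = ℓ ^ A * (K * 2 ^ (A + 1)) := by ring
            _ ≤ ℓ ^ A * ℓ := mul_le_mul_of_nonneg_left h3 hℓA.le
      _ ≤ _ := pow_le_pow_left₀ (by positivity) hlogL _
  have k5 : (S.card : ℝ) * (R / 2 / (K * ℓ ^ A)) ≤ 1 / 4 * (R / ℓ ^ A) := by
    have e1 : (S.card : ℝ) * (R / 2 / (K * ℓ ^ A)) = ((S.card : ℝ) / (2 * K)) * (R / ℓ ^ A) := by
      field_simp
    rw [e1]
    refine mul_le_mul_of_nonneg_right ?_ (by positivity)
    rw [div_le_iff₀ (by positivity)]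
    have : (0 : ℝ) ≤ (S.card : ℝ) := by positivity
    linarith
  have k6 : (S.card : ℝ) * (R / 2 / (Real.log (R / 2)) ^ (A + 1)) ≤ (S.card : ℝ) * (R / 2 / (K * ℓ ^ A)) :=
    mul_le_mul_of_nonneg_left k3 (by positivity)
  have k4 : 1 ≤ 1 / 2 * (R / ℓ ^ A) := by
    rw [mul_div_assoc', le_div_iff₀ hℓA]
    linarith
  linarith

end Pool.Agent.H533.JT
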